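import Pool.Agent.P.MP_d0a708_lc.BH.Trans

namespace Pool.Agent.Results.MP_d0a708_lc.BlindHead

open Pool.Agent.P.MP_d0a708_lc

theorem result : ∃ L : Set (List (Fin 3)),
    (∃ P : HeadsPDA (Fin 3) 1, P.Det ∧ P.lang = L) ∧
    ¬ ∃ M : HeadsFA (Fin 3) 2, M.Blind ∧ M.lang = L :=
  ⟨_, ⟨BH.pda, BH.pda_det, rfl⟩, fun ⟨M, h1, h2⟩ => BH.not_blind M h1 h2⟩

end Pool.Agent.Results.MP_d0a708_lc.BlindHead
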