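import Mathlib
import Pool.Agent.P.MP_d0a708_lc.Defs
import Pool.Agent.P.MP_d0a708_lc.Pda

/-!
A language accepted by a deterministic two-way one-head pushdown automaton and by no
deterministic two-way two-head finite automaton.
-/

namespace Pool.Agent.Results.MP_d0a708_lc.DetTwoHeads

open Pool.Agent.P.MP_d0a708_lc

theorem result : ∃ L : Set (List (Fin 3)),
    (∃ P : HeadsPDA (Fin 3) 1, P.Det ∧ P.lang = L) ∧
      ¬ ∃ M : HeadsFA (Fin 3) 2, M.Det ∧ M.lang = L := by
  refine ⟨pda.lang, ⟨pda, pda_det, rfl⟩, ?_⟩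
  rintro ⟨M, hM, hL⟩
  have := M.finQ
  let := Fintype.ofFinite M.Q
  refine (toSys M 2).core M.start (fun l => List.Vector Bool l) (fun l => by simp)
    (fun l x p => cell (x.1.map enc) p.toNat) (fun l x => rfl) (fun l x => val 0 x.1.reverse)
    (fun l x x' h => Subtype.ext (List.reverse_injective
      (val_inj _ _ _ _ (by simp [x.2, x'.2]) h).2)) fun l =>
    ⟨Finset.univ.sup fun x : List.Vector Bool l => val 0 x.1.reverse, fun x n hn => ?_⟩
  rw [← pda_spec x.1 n (le_trans (Finset.le_sup
    (f := fun x : List.Vector Bool l => val 0 x.1.reverse) (Finset.mem_univ x)) hn), ← hL]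
  refine acc_iff M hM 2 _ fun p _ => ?_
  have h := sym_word M 2 (x.1.map enc) n p
  rwa [List.length_map, x.2] at h

end Pool.Agent.Results.MP_d0a708_lc.DetTwoHeads
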