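import Mathlib
import Pool.Agent.P.MP_d0a708_lc.Defs
import Pool.Agent.P.MP_d0a708_lc.KMain

namespace Pool.Agent.Results.MP_d0a708_lc.NondetOneHead

open Pool.Agent.P.MP_d0a708_lc

/-- A nondeterministic two-way one-head pushdown automaton on a one-letter alphabet whose
language is accepted by no nondeterministic two-way two-head finite automaton. -/
theorem result : ∃ P : HeadsPDA Unit 1, ¬ ∃ M : HeadsFA Unit 2, M.lang = P.lang := by
  obtain ⟨P, hP⟩ := K.separation
  exact ⟨P, fun ⟨M, hM⟩ => hP M hM⟩

end Pool.Agent.Results.MP_d0a708_lc.NondetOneHead
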