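import Mathlib
import Pool.Agent.P.MP_d0a708_lc.Defs
import Pool.Agent.P.MP_d0a708_lc.NMain

namespace Pool.Agent.Results.MP_d0a708_lc.PolylogHead

open Pool.Agent.P.MP_d0a708_lc

/-- A deterministic two-way two-head pushdown automaton on a one-letter alphabet, whose second
head never leaves a polylogarithmic initial segment of the input, and whose language is accepted
by no nondeterministic two-way two-head finite automaton. -/
theorem result : ∃ (P : HeadsPDA Unit 2) (c : ℕ), P.Det ∧
    (∀ (w : List Unit) (x : P.Q × (Fin 2 → ℕ) × List P.Γ),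
      Relation.ReflTransGen (P.Step w) (P.start, fun _ => 0, [P.bottom]) x →
        x.2.1 1 ≤ c * (Nat.log 2 w.length + 1) ^ c) ∧
    ¬ ∃ M : HeadsFA Unit 2, M.lang = P.lang := by
  obtain ⟨c, hc⟩ := N.diag_bound
  exact ⟨N.diag, c, N.pda_det _ _, hc, fun ⟨M, hM⟩ => N.diag_ne M hM⟩

end Pool.Agent.Results.MP_d0a708_lc.PolylogHead
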